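import Pool.Agent.H37.UMD.Stmts

/-!
# Project UMD (MP_c6df36_pr): module RHO
-/

set_option autoImplicit false

open MeasureTheory ProbabilityTheory

namespace Pool.UMD

open Real in
lemma RHO_ent_ge_one {x : ℝ} (hx : 1 ≤ x) : (x - 1) ^ 2 / (2 * x) ≤ x * log x - x + 1 := by
  have h0 : 0 < x := by linarith
  set y : ℝ := 1 - 1 / x with hy
  have hy0 : 0 ≤ y := by
    rw [hy, sub_nonneg, div_le_one h0]
    exact hx
  have hy1 : y < 1 := by
    have : 0 < 1 / x := by positivity
    rw [hy]; linarith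
  have habs : |y| < 1 := by rw [abs_of_nonneg hy0]; exact hy1
  have hs := hasSum_pow_div_log_of_abs_lt_one habs
  have h2 := hs.summable.sum_le_tsum (Finset.range 2) (fun i _ => by positivity)
  rw [hs.tsum_eq] at h2
  simp only [Finset.sum_range_succ, Finset.sum_range_zero, zero_add, pow_one, Nat.cast_zero,
    Nat.cast_one, div_one] at h2
  have e1 : log (1 - y) = - log x := by
    have : 1 - y = x⁻¹ := by rw [hy]; ring_nf
    rw [this, log_inv]
  rw [e1, neg_neg] at h2
  have e2 : x * y = x - 1 := by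
    rw [hy]; field_simp
  have e3 : (x - 1) ^ 2 / (2 * x) = x * (y ^ 2 / 2) := by
    rw [← e2]
    field_simp
  rw [e3]
  have h3 : x * (y + y ^ (1 + 1) / (1 + 1)) ≤ x * log x := mul_le_mul_of_nonneg_left h2 h0.le
  have e4 : x * (y + y ^ (1 + 1) / (1 + 1)) = x * y + x * (y ^ 2 / 2) := by ring
  rw [e4, e2] at h3
  linarith

open Real in
lemma RHO_ent_le_one {x : ℝ} (h0 : 0 < x) (hx : x ≤ 1) :
    (x - 1) ^ 2 / 2 ≤ x * log x - x + 1 := by
  have h1 : 0 ≤ log x⁻¹ := log_nonneg ((one_le_inv₀ h0).2 hx)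
  have h2 := self_le_sinh_iff.2 h1
  rw [sinh_log (by positivity), log_inv, inv_inv] at h2
  have h3 : x * (-log x) ≤ x * ((x⁻¹ - x) / 2) := mul_le_mul_of_nonneg_left h2 h0.le
  have h4 : x * ((x⁻¹ - x) / 2) = (1 - x ^ 2) / 2 := by
    field_simp
  rw [h4] at h3
  nlinarith

open Real in
lemma RHO_ent_bound {u u0 : ℝ} (hu : 0 < u) (hu0 : 0 < u0) :
    (u - u0) ^ 2 / (2 * max u u0) ≤ u * log u - u * log u0 - u + u0 := by
  have e1 : log (u / u0) = log u - log u0 := log_div hu.ne' hu0.ne'
  rcases le_total u u0 with h | h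
  · rw [max_eq_right h]
    have h1 := RHO_ent_le_one (div_pos hu hu0) ((div_le_one hu0).2 h)
    rw [e1] at h1
    have h2 := mul_le_mul_of_nonneg_left h1 hu0.le
    have e2 : u0 * ((u / u0 - 1) ^ 2 / 2) = (u - u0) ^ 2 / (2 * u0) := by field_simp
    have e3 : u0 * (u / u0 * (log u - log u0) - u / u0 + 1) = u * log u - u * log u0 - u + u0 := by
      field_simp
    rw [e2, e3] at h2
    exact h2
  · rw [max_eq_left h]
    have h1 := RHO_ent_ge_one ((one_le_div hu0).2 h)
    rw [e1] at h1
    have h2 := mul_le_mul_of_nonneg_left h1 hu0.le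
    have e2 : u0 * ((u / u0 - 1) ^ 2 / (2 * (u / u0))) = (u - u0) ^ 2 / (2 * u) := by field_simp
    have e3 : u0 * (u / u0 * (log u - log u0) - u / u0 + 1) = u * log u - u * log u0 - u + u0 := by
      field_simp
    rw [e2, e3] at h2
    exact h2

open Real in
lemma RHO_breg {S u u0 : ℝ} (hu : 0 < u) (hu0 : 0 < u0) (h : u0 ≤ exp (S - 1)) :
    (u - u0) ^ 2 / (3 * max u u0) ≤ hS S u - hS S u0 - log u0 * (u - u0) := by
  have hmax : 0 < max u u0 := lt_max_of_lt_left hu
  have h1 : u0 ≤ exp S := h.trans (exp_le_exp.2 (by linarith))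
  have hlog : log u0 ≤ S - 1 := (log_le_iff_le_exp hu0).2 h
  by_cases h2 : u ≤ exp S
  · rw [hS, if_pos h2, hS, if_pos h1]
    have h3 := RHO_ent_bound hu hu0
    have h4 : (u - u0) ^ 2 / (3 * max u u0) ≤ (u - u0) ^ 2 / (2 * max u u0) := by
      apply div_le_div_of_nonneg_left (sq_nonneg _) (by positivity)
      linarith
    linarith
  · push Not at h2
    rw [hS, if_neg (not_le.2 h2), hS, if_pos h1]
    have h3 : u0 ≤ u := h1.trans h2.le
    rw [max_eq_left h3]
    set r : ℝ := S - log u0 with hr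
    have hr1 : 1 ≤ r := by linarith
    have e1 : u0 = exp S * exp (-r) := by
      rw [← exp_add, hr]
      have : S + -(S - log u0) = log u0 := by ring
      rw [this, exp_log hu0]
    have h4 : exp (-1) * (2 - r) ≤ exp (-r) := by
      have h5 : (2 - r) ≤ exp (1 - r) := by
        have := add_one_le_exp (1 - r)
        linarith
      have h6 : exp (-r) = exp (-1) * exp (1 - r) := by
        rw [← exp_add]; congr 1; ring
      rw [h6]
      exact mul_le_mul_of_nonneg_left h5 (exp_pos _).le
    have h7 : (1 : ℝ) / 3 ≤ exp (-1) := by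
      rw [exp_neg, one_div]
      apply inv_anti₀ (exp_pos _)
      exact exp_one_lt_three.le
    have h8 : exp (-1) ≤ 1 := exp_le_one_iff.2 (by norm_num)
    have h9 : (1 : ℝ) / 3 ≤ r - 1 + exp (-r) := by nlinarith
    have h10 : exp (-r) ≤ 1 := exp_le_one_iff.2 (by linarith)
    have h11 : exp S * (1 - exp (-r)) ≤ u * (1 - exp (-r)) :=
      mul_le_mul_of_nonneg_right h2.le (by linarith)
    have h12 : u * (1 / 3) ≤ u * (r - 1 + exp (-r)) := mul_le_mul_of_nonneg_left h9 hu.le
    have h13 : (u - u0) ^ 2 / (3 * u) ≤ u * (1 / 3) := by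
      rw [div_le_iff₀ (by positivity)]
      nlinarith
    have e2 : S * u - exp S + 1 - (u0 * log u0 - u0 + 1) - log u0 * (u - u0) =
        u * r - exp S + u0 := by
      rw [hr]; ring
    rw [e2]
    have e3 : u * r - exp S + u0 = u * r - exp S * (1 - exp (-r)) := by
      rw [e1]; ring
    rw [e3]
    linarith

open Real in
lemma RHO_nonneg {S u : ℝ} (hS0 : 0 ≤ S) (hu : 0 < u) : 0 ≤ hS S u := by
  by_cases h : u ≤ exp S
  · rw [hS, if_pos h]
    have h1 := RHO_ent_bound hu one_pos
    have h2 : 0 ≤ (u - 1) ^ 2 / (2 * max u 1) := by positivity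
    rw [log_one] at h1
    linarith
  · push Not at h
    rw [hS, if_neg (not_le.2 h)]
    have h1 : 1 ≤ exp S := one_le_exp hS0
    have h2 := RHO_ent_bound (exp_pos S) one_pos
    have h3 : 0 ≤ (exp S - 1) ^ 2 / (2 * max (exp S) 1) := by positivity
    rw [log_one, log_exp] at h2
    have h4 : S * exp S ≤ S * u := mul_le_mul_of_nonneg_left h.le hS0
    linarith

open Real in
lemma RHO_le {S u : ℝ} (hu : 1 ≤ u) : hS S u ≤ S * (u - 1) := by
  have h0 : 0 < u := by linarith
  have h1 : log u ≤ u - 1 := log_le_sub_one_of_pos h0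
  by_cases h : u ≤ exp S
  · rw [hS, if_pos h]
    have h2 : log u ≤ S := (log_le_iff_le_exp h0).2 h
    nlinarith
  · rw [hS, if_neg h]
    have h3 : S + 1 ≤ exp S := add_one_le_exp S
    linarith

open Real in
lemma RHO_mono {S u v : ℝ} (hS0 : 0 ≤ S) (hu : 1 ≤ u) (huv : u ≤ v) : hS S u ≤ hS S v := by
  have hu0 : 0 < u := by linarith
  have hv0 : 0 < v := by linarith
  have key : ∀ a b : ℝ, 1 ≤ a → a ≤ b → a * log a - a + 1 ≤ b * log b - b + 1 := by
    intro a b ha hab
    have ha0 : 0 < a := by linarith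
    have hb0 : 0 < b := by linarith
    have h1 := RHO_ent_bound hb0 ha0
    have h2 : 0 ≤ (b - a) ^ 2 / (2 * max b a) := by positivity
    have h3 : 0 ≤ log a := log_nonneg ha
    have h4 : log a * a ≤ log a * b := mul_le_mul_of_nonneg_left hab h3
    linarith
  by_cases h : v ≤ exp S
  · rw [hS, if_pos (huv.trans h), hS, if_pos h]
    exact key u v hu huv
  · have h' := h
    push Not at h'
    by_cases h2 : u ≤ exp S
    · rw [hS, if_pos h2, hS, if_neg h]
      have h3 := key u (exp S) hu h2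
      rw [log_exp] at h3
      have h4 : S * exp S ≤ S * v := mul_le_mul_of_nonneg_left h'.le hS0
      linarith
    · rw [hS, if_neg h2, hS, if_neg h]
      have h4 : S * u ≤ S * v := mul_le_mul_of_nonneg_left huv hS0
      linarith

open Real in
theorem sRho : SRho := by
  intro L hL
  refine ⟨fun t ht => ⟨?_, ?_⟩, fun s t hs hst => ?_, ?_, fun s t hs ht h => ?_⟩
  · exact RHO_nonneg (by linarith) (by linarith)
  · have := RHO_le (S := 2 * L + 2) (u := 1 + t) (by linarith)
    rw [rho]
    linarith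
  · exact RHO_mono (by linarith) (by linarith) (by linarith)
  · unfold rho hS
    apply Measurable.ite
    · exact measurableSet_le (by fun_prop) measurable_const
    · fun_prop
    · fun_prop
  · have h1 := RHO_breg (S := 2 * L + 2) (u := 1 + t) (u0 := 1 + s) (by linarith) (by linarith)
      (by rw [show (2 * L + 2 - 1 : ℝ) = 2 * L + 1 by ring]; exact h)
    have e1 : max (1 + t) (1 + s) = 1 + max s t := by
      rw [max_comm, max_add_add_left]
    rw [e1, show (1 + t - (1 + s) : ℝ) = t - s by ring] at h1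
    rw [rho, rho]
    exact h1

end Pool.UMD
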