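import Pool.Agent.H61.UMD.DRF
import Pool.Agent.H61.UMD.RHO

/-!
# Project UMD (MP_c6df36_pr): module CST, the cost lemma
-/

set_option autoImplicit false

open MeasureTheory ProbabilityTheory

namespace Pool.UMD

section CST

open Real

/-- splitting the difference into the parts parallel and orthogonal to `x` -/
lemma CST_split {a b c : ℝ} (h : DRF_PSD a b c) (x1 x2 y1 y2 : ℝ) (hn : 0 < DRF_nrm x1 x2) :
    DRF_QF a b c (y1 - x1) (y2 - x2) ≤
      2 * (DRF_QF a b c x1 x2 / DRF_nrm x1 x2 ^ 2) *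
        ((x1 * y1 + x2 * y2) / DRF_nrm x1 x2 - DRF_nrm x1 x2) ^ 2 +
      2 * (a + c) * (DRF_nrm y1 y2 ^ 2 - ((x1 * y1 + x2 * y2) / DRF_nrm x1 x2) ^ 2) := by
  set n := DRF_nrm x1 x2 with hn'
  set m := DRF_nrm y1 y2 with hm
  have hn2 : n ^ 2 = x1 ^ 2 + x2 ^ 2 := DRF_nrm_sq _ _
  have hm2 : m ^ 2 = y1 ^ 2 + y2 ^ 2 := DRF_nrm_sq _ _
  set P := (x1 * y1 + x2 * y2) / n with hP
  have hP' : x1 * y1 + x2 * y2 = P * n := by rw [hP]; field_simp
  -- the two parts
  set u1 := (P - n) / n * x1 with hu1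
  set u2 := (P - n) / n * x2 with hu2
  set v1 := y1 - P / n * x1 with hv1
  set v2 := y2 - P / n * x2 with hv2
  have e1 : y1 - x1 = u1 + v1 := by rw [hu1, hv1]; field_simp; ring
  have e2 : y2 - x2 = u2 + v2 := by rw [hu2, hv2]; field_simp; ring
  have h1 : DRF_QF a b c (u1 + v1) (u2 + v2) ≤ 2 * DRF_QF a b c u1 u2 + 2 * DRF_QF a b c v1 v2 := by
    have h2 := DRF_QF_nonneg h (u1 - v1) (u2 - v2)
    rw [DRF_QF] at h2
    rw [DRF_QF, DRF_QF, DRF_QF]
    nlinarith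
  have h2 : DRF_QF a b c u1 u2 = DRF_QF a b c x1 x2 / n ^ 2 * (P - n) ^ 2 := by
    rw [DRF_QF, DRF_QF, hu1, hu2]
    field_simp
  have h3 : DRF_QF a b c v1 v2 ≤ (a + c) * (m ^ 2 - P ^ 2) := by
    have h4 := DRF_QF_le h v1 v2
    have h5 : v1 ^ 2 + v2 ^ 2 = m ^ 2 - P ^ 2 := by
      have : v1 ^ 2 + v2 ^ 2 = (y1 ^ 2 + y2 ^ 2) - 2 * (P / n) * (x1 * y1 + x2 * y2) +
        (P / n) ^ 2 * (x1 ^ 2 + x2 ^ 2) := by rw [hv1, hv2]; ring
      rw [this, ← hm2, ← hn2, hP']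
      field_simp
      ring
    rw [h5] at h4
    exact h4
  rw [e1, e2]
  rw [h2] at h1
  nlinarith

/-- the pointwise cost, first case -/
lemma CST_pt1 {a b c : ℝ} (h : DRF_PSD a b c) (hac : a + c ≤ 6) (x1 x2 y1 y2 E : ℝ)
    (hn : 0 < DRF_nrm x1 x2) (hE : DRF_QF a b c x1 x2 ≤ E * DRF_nrm x1 x2 ^ 2)
    (H D : ℝ) (hH : 2 + DRF_nrm x1 x2 + DRF_nrm y1 y2 ≤ H)
    (hD : (DRF_nrm y1 y2 - DRF_nrm x1 x2) ^ 2 /
      (3 * (1 + max (DRF_nrm x1 x2) (DRF_nrm y1 y2))) ≤ D) :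
    DRF_QF a b c (y1 - x1) (y2 - x2) / H ≤ 12 * E * D +
      72 * (DRF_nrm y1 y2 - (x1 * y1 + x2 * y2) / DRF_nrm x1 x2) := by
  have hs := CST_split h x1 x2 y1 y2 hn
  have hq := DRF_QF_nonneg h x1 x2
  have hq6 := DRF_QF_le h x1 x2
  have hdot := (abs_le.1 (DRF_dot_le x1 x2 y1 y2))
  rw [← DRF_nrm_sq] at hq6
  have ha0 := h.ha
  have hc0 := h.hc
  set n := DRF_nrm x1 x2 with hn'
  set m := DRF_nrm y1 y2 with hm
  have hm0 : 0 ≤ m := DRF_nrm_nonneg _ _
  set P := (x1 * y1 + x2 * y2) / n with hP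
  have hPm : P ≤ m := by rw [hP, div_le_iff₀ hn]; linarith [hdot.2]
  have hPm' : -m ≤ P := by rw [hP, le_div_iff₀ hn]; linarith [hdot.1]
  set η := DRF_QF a b c x1 x2 / n ^ 2 with hη
  have hn2 : 0 < n ^ 2 := by positivity
  have hη0 : 0 ≤ η := by positivity
  have hηE : η ≤ E := by rw [hη, div_le_iff₀ hn2]; exact hE
  have hη6 : η ≤ 6 := by
    rw [hη, div_le_iff₀ hn2]
    nlinarith
  have hH0 : 0 < H := by linarith
  have hE0 : 0 ≤ E := hη0.trans hηE
  -- bound on the numerator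
  have hb : 0 ≤ m - P := by linarith
  have h1 : (P - n) ^ 2 ≤ 2 * (m - n) ^ 2 + 4 * m * (m - P) := by
    have hb2 : 0 ≤ m + P := by linarith
    have hb3 : 0 ≤ (m - P) * (m + P) := mul_nonneg hb hb2
    nlinarith [sq_nonneg ((m - n) + (m - P))]
  have h2 : m ^ 2 - P ^ 2 ≤ 2 * m * (m - P) := by nlinarith
  have h3 : DRF_QF a b c (y1 - x1) (y2 - x2) ≤ 4 * E * (m - n) ^ 2 + 72 * (m * (m - P)) := by
    have h4 : 2 * η * (P - n) ^ 2 ≤ 2 * η * (2 * (m - n) ^ 2 + 4 * m * (m - P)) :=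
      mul_le_mul_of_nonneg_left h1 (by positivity)
    have h5 : 2 * (a + c) * (m ^ 2 - P ^ 2) ≤ 12 * (2 * m * (m - P)) := by
      have h6 : 0 ≤ m ^ 2 - P ^ 2 := by nlinarith
      nlinarith
    have h6 : η * (m - n) ^ 2 ≤ E * (m - n) ^ 2 := mul_le_mul_of_nonneg_right hηE (sq_nonneg _)
    have h7 : η * (m * (m - P)) ≤ 6 * (m * (m - P)) :=
      mul_le_mul_of_nonneg_right hη6 (by positivity)
    nlinarith
  have hmax : 0 < 1 + max n m := by
    have := le_max_left n m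
    linarith
  have h8 : (m - n) ^ 2 / H ≤ 3 * D := by
    have h9 : (m - n) ^ 2 / H ≤ (m - n) ^ 2 / (1 + max n m) := by
      apply div_le_div_of_nonneg_left (sq_nonneg _) hmax
      rcases max_cases n m with ⟨h10, _⟩ | ⟨h10, _⟩ <;> rw [h10] <;> linarith
    have h10 : (m - n) ^ 2 / (1 + max n m) = 3 * ((m - n) ^ 2 / (3 * (1 + max n m))) := by
      field_simp
    rw [h10] at h9
    linarith
  have h11 : m * (m - P) / H ≤ m - P := by
    rw [div_le_iff₀ hH0]
    nlinarith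
  calc DRF_QF a b c (y1 - x1) (y2 - x2) / H
      ≤ (4 * E * (m - n) ^ 2 + 72 * (m * (m - P))) / H := div_le_div_of_nonneg_right h3 hH0.le
    _ = 4 * E * ((m - n) ^ 2 / H) + 72 * (m * (m - P) / H) := by ring
    _ ≤ 4 * E * (3 * D) + 72 * (m - P) := by
        have := mul_le_mul_of_nonneg_left h8 (by positivity : 0 ≤ 4 * E)
        linarith
    _ = _ := by ring

/-- the pointwise cost, second case -/
lemma CST_pt2 {a b c : ℝ} (h : DRF_PSD a b c) (hac : a + c ≤ 6) (x1 x2 y1 y2 : ℝ)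
    (hn : 0 < DRF_nrm x1 x2)
    (H : ℝ) (hH : 2 + DRF_nrm x1 x2 + DRF_nrm y1 y2 ≤ H) :
    DRF_QF a b c (y1 - x1) (y2 - x2) / H ≤
      2 * (DRF_QF a b c x1 x2 / DRF_nrm x1 x2 ^ 2) * (DRF_nrm x1 x2 + DRF_nrm y1 y2) +
      24 * (DRF_nrm y1 y2 - (x1 * y1 + x2 * y2) / DRF_nrm x1 x2) := by
  have hs := CST_split h x1 x2 y1 y2 hn
  have hq := DRF_QF_nonneg h x1 x2
  have hdot := (abs_le.1 (DRF_dot_le x1 x2 y1 y2))
  have ha0 := h.ha
  have hc0 := h.hc
  set n := DRF_nrm x1 x2 with hn'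
  set m := DRF_nrm y1 y2 with hm
  have hm0 : 0 ≤ m := DRF_nrm_nonneg _ _
  set P := (x1 * y1 + x2 * y2) / n with hP
  have hPm : P ≤ m := by rw [hP, div_le_iff₀ hn]; linarith [hdot.2]
  have hPm' : -m ≤ P := by rw [hP, le_div_iff₀ hn]; linarith [hdot.1]
  set η := DRF_QF a b c x1 x2 / n ^ 2 with hη
  have hη0 : 0 ≤ η := by positivity
  have hH0 : 0 < H := by linarith
  have hb : 0 ≤ m - P := by linarith
  have h1 : (P - n) ^ 2 ≤ (n + m) * H := by
    have h3 : |P - n| ≤ n + m := by rw [abs_le]; constructor <;> linarith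
    have h4 : (P - n) ^ 2 = |P - n| * |P - n| := by rw [← sq, sq_abs]
    rw [h4]
    exact mul_le_mul h3 (by linarith) (abs_nonneg _) (by linarith)
  have h3 : DRF_QF a b c (y1 - x1) (y2 - x2) ≤ 2 * η * ((n + m) * H) + 24 * ((m - P) * H) := by
    have h4 : 2 * η * (P - n) ^ 2 ≤ 2 * η * ((n + m) * H) :=
      mul_le_mul_of_nonneg_left h1 (by positivity)
    have h5 : 2 * (a + c) * (m ^ 2 - P ^ 2) ≤ 12 * (2 * m * (m - P)) := by
      have h6 : 0 ≤ m ^ 2 - P ^ 2 := by nlinarith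
      nlinarith
    have h6 : m * (m - P) ≤ (m - P) * H := by nlinarith
    nlinarith
  rw [div_le_iff₀ hH0]
  refine h3.trans (le_of_eq ?_)
  ring

end CST

/-- the coordinates in which the norm is Euclidean -/
noncomputable def CST_x (β₁ β₂ L : ℝ) (p : ℝ × ℝ) : ℝ × ℝ := (L ^ β₁ * p.1, L ^ β₂ * p.2)

lemma CST_NL (β₁ β₂ L : ℝ) (p : ℝ × ℝ) :
    NL β₁ β₂ L p = DRF_nrm (CST_x β₁ β₂ L p).1 (CST_x β₁ β₂ L p).2 := rfl

/-- the entries of the shape matrix -/
noncomputable def CST_a (β₁ L : ℝ) (A : Mat) : ℝ := (L ^ (-β₁)) ^ 2 * (A.a ^ 2 + A.b ^ 2) / A.det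
noncomputable def CST_b (β₁ β₂ L : ℝ) (A : Mat) : ℝ :=
  L ^ (-β₁) * L ^ (-β₂) * (A.a * A.c + A.b * A.d) / A.det
noncomputable def CST_c (β₂ L : ℝ) (A : Mat) : ℝ := (L ^ (-β₂)) ^ 2 * (A.c ^ 2 + A.d ^ 2) / A.det

lemma CST_tau (β₁ β₂ L : ℝ) (A : Mat) : tau β₁ β₂ L A = CST_a β₁ L A + CST_c β₂ L A := by
  rw [tau, CST_a, CST_c, add_div]

lemma CST_psd (β₁ β₂ L : ℝ) (hL : 0 < L) (A : Mat) (hA : 0 < A.det) :
    DRF_PSD (CST_a β₁ L A) (CST_b β₁ β₂ L A) (CST_c β₂ L A) := by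
  have h1 : 0 < L ^ (-β₁) := Real.rpow_pos_of_pos hL _
  have h2 : 0 < L ^ (-β₂) := Real.rpow_pos_of_pos hL _
  refine ⟨by rw [CST_a]; positivity, by rw [CST_c]; positivity, ?_⟩
  have e : CST_a β₁ L A * CST_c β₂ L A - CST_b β₁ β₂ L A ^ 2 =
    (L ^ (-β₁) * L ^ (-β₂) / A.det * (A.a * A.d - A.b * A.c)) ^ 2 := by
    rw [CST_a, CST_b, CST_c]
    ring
  have : 0 ≤ CST_a β₁ L A * CST_c β₂ L A - CST_b β₁ β₂ L A ^ 2 := by
    rw [e]; positivity
  linarith

lemma CST_TA (β₁ β₂ L : ℝ) (hL : 0 < L) (A : Mat) (p : ℝ × ℝ) :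
    TA A p = DRF_QF (CST_a β₁ L A) (CST_b β₁ β₂ L A) (CST_c β₂ L A)
      (CST_x β₁ β₂ L p).1 (CST_x β₁ β₂ L p).2 := by
  have h1 : L ^ (-β₁) * L ^ β₁ = 1 := by rw [← Real.rpow_add hL]; simp
  have h2 : L ^ (-β₂) * L ^ β₂ = 1 := by rw [← Real.rpow_add hL]; simp
  have e0 : nm (A.tr p) ^ 2 = (A.a * p.1 + A.c * p.2) ^ 2 + (A.b * p.1 + A.d * p.2) ^ 2 := by
    rw [nm, Real.sq_sqrt (by positivity), Mat.tr]
  rw [TA, e0, DRF_QF, CST_a, CST_b, CST_c, CST_x]
  have e1 : (L ^ (-β₁)) ^ 2 * (A.a ^ 2 + A.b ^ 2) / A.det * (L ^ β₁ * p.1) ^ 2 =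
    (L ^ (-β₁) * L ^ β₁) ^ 2 * ((A.a ^ 2 + A.b ^ 2) * p.1 ^ 2) / A.det := by ring
  have e2 : 2 * (L ^ (-β₁) * L ^ (-β₂) * (A.a * A.c + A.b * A.d) / A.det) * (L ^ β₁ * p.1) *
    (L ^ β₂ * p.2) = (L ^ (-β₁) * L ^ β₁) * (L ^ (-β₂) * L ^ β₂) *
      (2 * (A.a * A.c + A.b * A.d) * p.1 * p.2) / A.det := by ring
  have e3 : (L ^ (-β₂)) ^ 2 * (A.c ^ 2 + A.d ^ 2) / A.det * (L ^ β₂ * p.2) ^ 2 =
    (L ^ (-β₂) * L ^ β₂) ^ 2 * ((A.c ^ 2 + A.d ^ 2) * p.2 ^ 2) / A.det := by ring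
  rw [e1, e2, e3, h1, h2]
  ring

lemma CST_x_sub (β₁ β₂ L : ℝ) (p q : ℝ × ℝ) : CST_x β₁ β₂ L (q - p) =
    ((CST_x β₁ β₂ L q).1 - (CST_x β₁ β₂ L p).1, (CST_x β₁ β₂ L q).2 - (CST_x β₁ β₂ L p).2) := by
  simp only [CST_x, Prod.fst_sub, Prod.snd_sub]
  ext <;> simp <;> ring

lemma CST_meas {β₁ β₂ L : ℝ} {q : ℝ → ℝ × ℝ} (hq : Measurable q) :
    Measurable (fun g => NL β₁ β₂ L (q g)) := by
  unfold NL nm
  fun_prop

lemma CST_NL_le {β₁ β₂ L B : ℝ} (hL : 0 < L) {q : ℝ × ℝ} (hq : |q.1| ≤ B ∧ |q.2| ≤ B) :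
    NL β₁ β₂ L q ≤ (L ^ β₁ + L ^ β₂) * B := by
  have h1 : 0 < L ^ β₁ := Real.rpow_pos_of_pos hL _
  have h2 : 0 < L ^ β₂ := Real.rpow_pos_of_pos hL _
  have hB : 0 ≤ B := (abs_nonneg _).trans hq.1
  rw [NL, nm]
  apply Real.sqrt_le_iff.2
  refine ⟨by positivity, ?_⟩
  have h3 : q.1 ^ 2 ≤ B ^ 2 := sq_le_sq' (by linarith [(abs_le.1 hq.1).1]) (abs_le.1 hq.1).2
  have h4 : q.2 ^ 2 ≤ B ^ 2 := sq_le_sq' (by linarith [(abs_le.1 hq.2).1]) (abs_le.1 hq.2).2
  have h5 : (L ^ β₁ * q.1) ^ 2 ≤ (L ^ β₁) ^ 2 * B ^ 2 := by rw [mul_pow]; gcongr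
  have h6 : (L ^ β₂ * q.2) ^ 2 ≤ (L ^ β₂) ^ 2 * B ^ 2 := by rw [mul_pow]; gcongr
  have h7 : 0 ≤ L ^ β₁ * L ^ β₂ * B ^ 2 := by positivity
  simp only
  nlinarith

theorem sCst : SCst := by
  intro β₁ β₂ hβ₁ hβ₂ hβ L hL A hA hτ p q φ f B hq hf hB h1 h2 hφ hfq hexp
  have hL0 : 0 < L := by linarith
  have hpsd := CST_psd β₁ β₂ L hL0 A hA
  rw [CST_tau] at hτ
  obtain ⟨hR1, hR2, hR3, hR4⟩ := sRho L (by linarith)
  set x := CST_x β₁ β₂ L p with hx
  set y : ℝ → ℝ × ℝ := fun g => CST_x β₁ β₂ L (q g) with hy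
  set a := CST_a β₁ L A
  set b := CST_b β₁ β₂ L A
  set c := CST_c β₂ L A
  have hTA : ∀ g, TA A (q g - p) = DRF_QF a b c ((y g).1 - x.1) ((y g).2 - x.2) := by
    intro g
    rw [CST_TA β₁ β₂ L hL0, CST_x_sub]
  have hTAp : TA A p = DRF_QF a b c x.1 x.2 := CST_TA β₁ β₂ L hL0 A p
  have hNq : ∀ g, NL β₁ β₂ L (q g) = DRF_nrm (y g).1 (y g).2 := fun g => CST_NL _ _ _ _
  have hNp : NL β₁ β₂ L p = DRF_nrm x.1 x.2 := CST_NL _ _ _ _
  set n := NL β₁ β₂ L p with hn
  set m : ℝ → ℝ := fun g => NL β₁ β₂ L (q g) with hm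
  have hm0 : ∀ g, 0 ≤ m g := fun g => Real.sqrt_nonneg _
  have hn0 : 0 ≤ n := Real.sqrt_nonneg _
  -- integrability
  have hmm : Measurable m := CST_meas hq
  have hmB : ∀ g, m g ≤ (L ^ β₁ + L ^ β₂) * B := fun g => CST_NL_le hL0 ⟨(hB g).1, (hB g).2.1⟩
  have im : Integrable m g1 := by
    refine Integrable.of_bound hmm.aestronglyMeasurable ((L ^ β₁ + L ^ β₂) * B) ?_
    filter_upwards with g
    rw [Real.norm_eq_abs, abs_of_nonneg (hm0 g)]
    exact hmB g
  have ir : Integrable (fun g => rho L (m g)) g1 := by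
    refine Integrable.of_bound (hR3.comp hmm).aestronglyMeasurable
      (rho L ((L ^ β₁ + L ^ β₂) * B)) ?_
    filter_upwards with g
    rw [Real.norm_eq_abs, abs_of_nonneg (hR1 _ (hm0 g)).1]
    exact hR2 _ _ (hm0 g) (hmB g)
  have iq1 : Integrable (fun g => (q g).1) g1 := by
    refine Integrable.of_bound (by fun_prop) B ?_
    filter_upwards with g
    exact (hB g).1
  have iq2 : Integrable (fun g => (q g).2) g1 := by
    refine Integrable.of_bound (by fun_prop) B ?_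
    filter_upwards with g
    exact (hB g).2.1
  -- the divergence
  set D : ℝ → ℝ := fun g => rho L (m g) - rho L n - Real.log (1 + n) * (m g - n) with hD
  have hDge : ∀ g, (m g - n) ^ 2 / (3 * (1 + max n (m g))) ≤ D g := fun g =>
    hR4 n (m g) hn0 (hm0 g) hexp
  have hD0 : ∀ g, 0 ≤ D g := by
    intro g
    refine le_trans ?_ (hDge g)
    have : 0 ≤ max n (m g) := le_max_of_le_left hn0
    positivity
  have iD : Integrable D g1 :=
    (ir.sub (integrable_const _)).sub ((im.sub (integrable_const _)).const_mul _)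
  have hDint : ∫ g, D g ∂g1 = (∫ g, rho L (m g) ∂g1 - rho L n) -
      Real.log (1 + n) * (∫ g, m g ∂g1 - n) := by
    have ir' : Integrable (fun g => rho L (m g) - rho L n) g1 := ir.sub (integrable_const _)
    have im' : Integrable (fun g => m g - n) g1 := im.sub (integrable_const _)
    have im'' : Integrable (fun g => Real.log (1 + n) * (m g - n)) g1 := im'.const_mul _
    have e0 : ∫ g, D g ∂g1 =
      ∫ g, ((rho L (m g) - rho L n) - Real.log (1 + n) * (m g - n)) ∂g1 := rfl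
    rw [e0, integral_sub ir' im'', integral_sub ir (integrable_const _), integral_const_mul,
      integral_sub im (integrable_const _)]
    simp
  set exc := ∫ g, m g ∂g1 - n with hexc
  set rad := ∫ g, rho L (m g) ∂g1 - rho L n with hrad
  have hlog : 0 ≤ Real.log (1 + n) := Real.log_nonneg (by linarith)
  have hDint0 : 0 ≤ ∫ g, D g ∂g1 := integral_nonneg hD0
  have hH : ∀ g, 2 + n + m g ≤ φ + f g := fun g => by
    have := hfq g
    have e : m g = NL β₁ β₂ L (q g) := rfl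
    rw [← e] at this
    linarith
  have hH0 : ∀ g, 0 < φ + f g := fun g => by have := hH g; have := hm0 g; linarith
  have hLpos : 0 < 1920 / L := by positivity
  have hmeasT : Measurable (fun g => TA A (q g - p) / (φ + f g)) := by
    unfold TA nm Mat.tr
    fun_prop
  have hT0 : ∀ g, 0 ≤ TA A (q g - p) / (φ + f g) := by
    intro g
    have h3 := DRF_QF_nonneg hpsd ((y g).1 - x.1) ((y g).2 - x.2)
    rw [← hTA] at h3
    exact div_nonneg h3 (hH0 g).le
  -- a general principle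
  have main : ∀ R : ℝ → ℝ, Integrable R g1 → (∀ g, TA A (q g - p) / (φ + f g) ≤ R g) →
      ∫ g, TA A (q g - p) / (φ + f g) ∂g1 ≤ ∫ g, R g ∂g1 := by
    intro R iR hRb
    apply integral_mono _ iR hRb
    refine iR.mono' hmeasT.aestronglyMeasurable ?_
    filter_upwards with g
    rw [Real.norm_eq_abs, abs_of_nonneg (hT0 g)]
    exact hRb g
  rcases hn0.eq_or_lt with hz | hpos
  · -- `x = 0`
    have hx0 : x.1 = 0 ∧ x.2 = 0 := by
      have h3 : DRF_nrm x.1 x.2 ^ 2 = x.1 ^ 2 + x.2 ^ 2 := DRF_nrm_sq _ _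
      rw [← hNp, ← hz] at h3
      constructor <;> nlinarith [sq_nonneg x.1, sq_nonneg x.2]
    have hb : ∀ g, TA A (q g - p) / (φ + f g) ≤ 6 * m g := by
      intro g
      rw [div_le_iff₀ (hH0 g), hTA, hx0.1, hx0.2, sub_zero, sub_zero]
      have h3 := DRF_QF_le hpsd (y g).1 (y g).2
      rw [← DRF_nrm_sq, ← hNq] at h3
      have h4 := hH g
      have h5 := hm0 g
      have e : m g = NL β₁ β₂ L (q g) := rfl
      rw [← e] at h3
      have h6 : (a + c) * m g ^ 2 ≤ 6 * m g ^ 2 := mul_le_mul_of_nonneg_right hτ (sq_nonneg _)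
      have h7 : m g * m g ≤ m g * (φ + f g) := mul_le_mul_of_nonneg_left (by linarith) h5
      nlinarith
    have h3 := main _ (im.const_mul 6) hb
    rw [integral_const_mul] at h3
    have h4 : ¬ (160 / L * n ^ 2 < TA A p) := by
      rw [hTAp, ← hz, hx0.1, hx0.2, DRF_QF]
      simp
    rw [if_neg h4]
    have h5 : ∫ g, m g ∂g1 = exc := by rw [hexc, ← hz]; ring
    rw [h5] at h3
    have h6 : 0 ≤ exc := by rw [← h5]; exact integral_nonneg hm0
    have h7 : 0 ≤ rad := by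
      rw [hDint] at hDint0
      have : 0 ≤ Real.log (1 + n) * exc := by positivity
      linarith
    have h8 : 0 ≤ 1920 / L * rad := by positivity
    linarith
  · have hpos' : 0 < DRF_nrm x.1 x.2 := by rw [← hNp]; exact hpos
    -- the excess
    set β : ℝ → ℝ := fun g => m g - (x.1 * (y g).1 + x.2 * (y g).2) / n with hβd
    have hβ0 : ∀ g, 0 ≤ β g := by
      intro g
      have h3 := (abs_le.1 (DRF_dot_le x.1 x.2 (y g).1 (y g).2)).2
      rw [← hNp, ← hNq] at h3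
      have : (x.1 * (y g).1 + x.2 * (y g).2) / n ≤ m g := by
        rw [div_le_iff₀ hpos]; linarith
      simp only [hβd]
      linarith
    have iP : Integrable (fun g => (x.1 * (y g).1 + x.2 * (y g).2) / n) g1 := by
      have e : (fun g => (x.1 * (y g).1 + x.2 * (y g).2) / n) =
        fun g => (x.1 * L ^ β₁ / n) * (q g).1 + (x.2 * L ^ β₂ / n) * (q g).2 := by
        funext g
        simp only [hy, CST_x]
        ring
      rw [e]
      exact (iq1.const_mul _).add (iq2.const_mul _)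
    have iβ : Integrable β g1 := im.sub iP
    have hβint : ∫ g, β g ∂g1 = exc := by
      rw [hβd, integral_sub im iP, hexc]
      congr 1
      have e : (fun g => (x.1 * (y g).1 + x.2 * (y g).2) / n) =
        fun g => (x.1 * L ^ β₁ / n) * (q g).1 + (x.2 * L ^ β₂ / n) * (q g).2 := by
        funext g
        simp only [hy, CST_x]
        ring
      rw [e, integral_add (iq1.const_mul _) (iq2.const_mul _), integral_const_mul,
        integral_const_mul, h1, h2]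
      have e2 : n ^ 2 = x.1 ^ 2 + x.2 ^ 2 := by rw [hNp]; exact DRF_nrm_sq _ _
      have e3 : x.1 = L ^ β₁ * p.1 := rfl
      have e4 : x.2 = L ^ β₂ * p.2 := rfl
      have e5 : x.1 * L ^ β₁ / n * p.1 + x.2 * L ^ β₂ / n * p.2 = (x.1 ^ 2 + x.2 ^ 2) / n := by
        rw [e3, e4]; ring
      rw [e5, ← e2]
      field_simp
    have hexc0 : 0 ≤ exc := by rw [← hβint]; exact integral_nonneg hβ0
    have hrad' : ∫ g, D g ∂g1 ≤ rad := by
      rw [hDint]
      have : 0 ≤ Real.log (1 + n) * exc := by positivity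
      linarith
    have hrad0 : 0 ≤ rad := hDint0.trans hrad'
    by_cases hcase : 160 / L * n ^ 2 < TA A p
    · rw [if_pos hcase]
      set η := TA A p / n ^ 2 with hη
      have hη0 : 0 ≤ η := by
        rw [hη, hTAp]
        exact div_nonneg (DRF_QF_nonneg hpsd _ _) (sq_nonneg _)
      have hη6 : η ≤ 6 := by
        rw [hη, div_le_iff₀ (by positivity), hTAp, hNp]
        have h3 := DRF_QF_le hpsd x.1 x.2
        rw [← DRF_nrm_sq] at h3
        nlinarith
      have hb : ∀ g, TA A (q g - p) / (φ + f g) ≤ 2 * η * (n + m g) + 24 * β g := by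
        intro g
        have h3 := CST_pt2 hpsd hτ x.1 x.2 (y g).1 (y g).2 hpos' (φ + f g)
          (by rw [← hNp, ← hNq]; exact hH g)
        rw [← hNp, ← hNq, ← hTA, ← hTAp] at h3
        exact h3
      have inm : Integrable (fun g => n + m g) g1 := (integrable_const n).add im
      have inm' : Integrable (fun g => 2 * η * (n + m g)) g1 := inm.const_mul _
      have iβ' : Integrable (fun g => 24 * β g) g1 := iβ.const_mul _
      have h3 := main (fun g => 2 * η * (n + m g) + 24 * β g) (inm'.add iβ') hb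
      have h4 : ∫ g, (2 * η * (n + m g) + 24 * β g) ∂g1 = 2 * η * (2 * n + exc) + 24 * exc := by
        rw [integral_add inm' iβ', integral_const_mul, integral_const_mul, hβint,
          integral_add (integrable_const n) im]
        simp only [integral_const, probReal_univ, smul_eq_mul, one_mul]
        rw [hexc]; ring
      have h5 : ∫ g, TA A (q g - p) / (φ + f g) ∂g1 ≤ 2 * η * (2 * n + exc) + 24 * exc := by
        rw [← h4]; exact h3
      have h6 : η * n / 4 ≤ FL β₁ β₂ L A p := by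
        rw [FL]
        have hT : TA A p = η * n ^ 2 := by rw [hη]; field_simp
        have e1 : √(TA A p) = √η * n := by
          rw [hT, Real.sqrt_mul hη0, Real.sqrt_sq hpos.le]
        have h7 : 160 / L ≤ η := by
          rw [hη, le_div_iff₀ (by positivity)]
          exact hcase.le
        have h8 : 2 * √(40 / L) ≤ √η := by
          have : 2 * √(40 / L) = √(160 / L) := by
            have e2 : (160 : ℝ) / L = 2 ^ 2 * (40 / L) := by ring
            rw [e2, Real.sqrt_mul (by norm_num), Real.sqrt_sq (by norm_num)]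
          rw [this]
          exact Real.sqrt_le_sqrt h7
        have h9 : √η * n / 2 ≤ max (√(TA A p) - √(40 / L) * NL β₁ β₂ L p) 0 := by
          apply le_max_of_le_left
          rw [e1, ← hn]
          nlinarith
        rw [← hn]
        rw [le_div_iff₀ hpos]
        calc η * n / 4 * n = (√η * n / 2) ^ 2 := by
              rw [div_pow, mul_pow, Real.sq_sqrt hη0]; ring
          _ ≤ _ := pow_le_pow_left₀ (by positivity) h9 2
      have h7 : 0 ≤ 1920 / L * rad := by positivity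
      have h8 : η * exc ≤ 6 * exc := mul_le_mul_of_nonneg_right hη6 hexc0
      nlinarith
    · rw [if_neg hcase]
      push Not at hcase
      have hb : ∀ g, TA A (q g - p) / (φ + f g) ≤ 12 * (160 / L) * D g + 72 * β g := by
        intro g
        have h3 := CST_pt1 hpsd hτ x.1 x.2 (y g).1 (y g).2 (160 / L) hpos'
          (by rw [← hNp, ← hTAp]; exact hcase) (φ + f g) (D g)
          (by rw [← hNp, ← hNq]; exact hH g) (by rw [← hNp, ← hNq]; exact hDge g)
        rw [← hNp, ← hNq, ← hTA] at h3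
        exact h3
      have iD' : Integrable (fun g => 12 * (160 / L) * D g) g1 := iD.const_mul _
      have iβ' : Integrable (fun g => 72 * β g) g1 := iβ.const_mul _
      have h3 := main (fun g => 12 * (160 / L) * D g + 72 * β g) (iD'.add iβ') hb
      have h4 : ∫ g, (12 * (160 / L) * D g + 72 * β g) ∂g1 =
          12 * (160 / L) * ∫ g, D g ∂g1 + 72 * exc := by
        rw [integral_add iD' iβ', integral_const_mul, integral_const_mul, hβint]
      have h5 : ∫ g, TA A (q g - p) / (φ + f g) ∂g1 ≤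
          12 * (160 / L) * ∫ g, D g ∂g1 + 72 * exc := by
        rw [← h4]; exact h3
      have h6 : 12 * (160 / L) * ∫ g, D g ∂g1 ≤ 12 * (160 / L) * rad :=
        mul_le_mul_of_nonneg_left hrad' (by positivity)
      have h7 : 12 * (160 / L) * rad = 1920 / L * rad := by ring
      linarith

end Pool.UMD
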