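import Pool.Agent.H37.UMD.Stmts

/-!
# Project UMD (MP_c6df36_pr): module DRF, the drift lemma
-/

set_option autoImplicit false

open MeasureTheory ProbabilityTheory

namespace Pool.UMD

section DRF

open Real

/-- the Euclidean norm in the plane -/
noncomputable def DRF_nrm (x1 x2 : ℝ) : ℝ := √(x1 ^ 2 + x2 ^ 2)

/-- a positive semidefinite quadratic form -/
structure DRF_PSD (a b c : ℝ) : Prop where
  ha : 0 ≤ a
  hc : 0 ≤ c
  hdet : b ^ 2 ≤ a * c

/-- the value of the quadratic form -/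
def DRF_QF (a b c x1 x2 : ℝ) : ℝ := a * x1 ^ 2 + 2 * b * x1 * x2 + c * x2 ^ 2

/-- the polar form -/
def DRF_QB (a b c x1 x2 y1 y2 : ℝ) : ℝ := a * x1 * y1 + b * (x1 * y2 + x2 * y1) + c * x2 * y2

/-- the potential: `k = sqrt (40 / L)`, `T` the value of the form, `n` the norm -/
noncomputable def DRF_FF (k T n : ℝ) : ℝ := (max (√T - k * n) 0) ^ 2 / n

lemma DRF_nrm_nonneg (x1 x2 : ℝ) : 0 ≤ DRF_nrm x1 x2 := sqrt_nonneg _

lemma DRF_nrm_sq (x1 x2 : ℝ) : DRF_nrm x1 x2 ^ 2 = x1 ^ 2 + x2 ^ 2 := sq_sqrt (by positivity)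

lemma DRF_QF_nonneg {a b c : ℝ} (h : DRF_PSD a b c) (x1 x2 : ℝ) : 0 ≤ DRF_QF a b c x1 x2 := by
  have h1 := h.ha
  have h2 := h.hc
  have h3 := h.hdet
  rw [DRF_QF]
  rcases h1.eq_or_lt with h0 | h0
  · have hb : b = 0 := by
      rw [← h0, zero_mul] at h3
      exact pow_eq_zero_iff (two_ne_zero) |>.1 (le_antisymm h3 (sq_nonneg b))
    rw [← h0, hb]
    have : 0 ≤ c * x2 ^ 2 := by positivity
    linarith
  · have h4 : 0 ≤ a * (a * x1 ^ 2 + 2 * b * x1 * x2 + c * x2 ^ 2) := by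
      have : a * (a * x1 ^ 2 + 2 * b * x1 * x2 + c * x2 ^ 2) =
        (a * x1 + b * x2) ^ 2 + (a * c - b ^ 2) * x2 ^ 2 := by ring
      rw [this]
      have : 0 ≤ a * c - b ^ 2 := by linarith
      positivity
    exact nonneg_of_mul_nonneg_right h4 h0

lemma DRF_QF_le {a b c : ℝ} (h : DRF_PSD a b c) (x1 x2 : ℝ) : DRF_QF a b c x1 x2 ≤ (a + c) * (x1 ^ 2 + x2 ^ 2) := by
  have key := DRF_QF_nonneg h x2 (-x1)
  rw [DRF_QF] at key ⊢
  nlinarith

/-- Cauchy-Schwarz -/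
lemma DRF_QB_sq_le {a b c : ℝ} (h : DRF_PSD a b c) (x1 x2 y1 y2 : ℝ) :
    DRF_QB a b c x1 x2 y1 y2 ^ 2 ≤ DRF_QF a b c x1 x2 * DRF_QF a b c y1 y2 := by
  have e : DRF_QF a b c x1 x2 * DRF_QF a b c y1 y2 - DRF_QB a b c x1 x2 y1 y2 ^ 2 =
    (a * c - b ^ 2) * (x1 * y2 - x2 * y1) ^ 2 := by
    rw [DRF_QF, DRF_QF, DRF_QB]; ring
  have h1 : 0 ≤ a * c - b ^ 2 := by have := h.hdet; linarith
  have h2 : 0 ≤ (a * c - b ^ 2) * (x1 * y2 - x2 * y1) ^ 2 := by positivity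
  linarith

lemma DRF_QB_le {a b c : ℝ} (h : DRF_PSD a b c) (x1 x2 y1 y2 : ℝ) :
    DRF_QB a b c x1 x2 y1 y2 ≤ √(DRF_QF a b c x1 x2) * √(DRF_QF a b c y1 y2) := by
  rw [← sqrt_mul (DRF_QF_nonneg h _ _)]
  exact (le_abs_self _).trans (abs_le_sqrt (DRF_QB_sq_le h _ _ _ _))

lemma DRF_dot_le (x1 x2 y1 y2 : ℝ) : |x1 * y1 + x2 * y2| ≤ DRF_nrm x1 x2 * DRF_nrm y1 y2 := by
  rw [DRF_nrm, DRF_nrm, ← sqrt_mul (by positivity)]
  apply abs_le_sqrt
  nlinarith [sq_nonneg (x1 * y2 - x2 * y1)]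

lemma DRF_FF_zero_right (k T : ℝ) : DRF_FF k T 0 = 0 := by simp [DRF_FF]

lemma DRF_FF_nonneg {k T n : ℝ} (hn : 0 ≤ n) : 0 ≤ DRF_FF k T n := by
  rw [DRF_FF]; positivity

lemma DRF_FF_le {k T n : ℝ} (hk : 0 ≤ k) (hT : 0 ≤ T) (hn : 0 ≤ n) : DRF_FF k T n ≤ T / n := by
  rw [DRF_FF]
  apply div_le_div_of_nonneg_right _ hn
  have h1 : max (√T - k * n) 0 ≤ √T := by
    apply max_le _ (sqrt_nonneg _)
    have : 0 ≤ k * n := by positivity
    linarith
  calc (max (√T - k * n) 0) ^ 2 ≤ (√T) ^ 2 := by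
        apply pow_le_pow_left₀ (le_max_right _ _) h1
    _ = T := sq_sqrt hT

/-- the difference of two vectors of equal length -/
lemma DRF_QF_diff {a b c : ℝ} (h : DRF_PSD a b c) (x1 x2 y1 y2 : ℝ) (hn : 0 < DRF_nrm x1 x2) :
    DRF_QF a b c y1 y2 - 2 * (DRF_nrm y1 y2 / DRF_nrm x1 x2) * DRF_QB a b c x1 x2 y1 y2 +
      (DRF_nrm y1 y2 / DRF_nrm x1 x2) ^ 2 * DRF_QF a b c x1 x2 ≤
      2 * (a + c) * DRF_nrm y1 y2 * (DRF_nrm y1 y2 - (x1 * y1 + x2 * y2) / DRF_nrm x1 x2) := by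
  set n := DRF_nrm x1 x2 with hn'
  set m := DRF_nrm y1 y2 with hm
  have hn2 : n ^ 2 = x1 ^ 2 + x2 ^ 2 := DRF_nrm_sq _ _
  have hm2 : m ^ 2 = y1 ^ 2 + y2 ^ 2 := DRF_nrm_sq _ _
  have h1 := DRF_QF_le h (y1 - m / n * x1) (y2 - m / n * x2)
  have e1 : DRF_QF a b c (y1 - m / n * x1) (y2 - m / n * x2) =
      DRF_QF a b c y1 y2 - 2 * (m / n) * DRF_QB a b c x1 x2 y1 y2 + (m / n) ^ 2 * DRF_QF a b c x1 x2 := by
    rw [DRF_QF, DRF_QF, DRF_QF, DRF_QB]; ring
  have e2 : (y1 - m / n * x1) ^ 2 + (y2 - m / n * x2) ^ 2 =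
      2 * m * (m - (x1 * y1 + x2 * y2) / n) := by
    have : (y1 - m / n * x1) ^ 2 + (y2 - m / n * x2) ^ 2 =
      (y1 ^ 2 + y2 ^ 2) - 2 * (m / n) * (x1 * y1 + x2 * y2) + (m / n) ^ 2 * (x1 ^ 2 + x2 ^ 2) := by
      ring
    rw [this, ← hm2, ← hn2]
    field_simp
    ring
  rw [e1, e2] at h1
  linarith

/-- DRIFT LEMMA: the potential lies below its tangent plus a multiple of the excess -/
theorem DRF_drift {a b c k : ℝ} (h : DRF_PSD a b c) (hk : 0 ≤ k) (x1 x2 : ℝ) (hn : 0 < DRF_nrm x1 x2) :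
    ∃ l1 l2 : ℝ, l1 * x1 + l2 * x2 = DRF_FF k (DRF_QF a b c x1 x2) (DRF_nrm x1 x2) ∧
      ∀ y1 y2 : ℝ, DRF_FF k (DRF_QF a b c y1 y2) (DRF_nrm y1 y2) ≤ l1 * y1 + l2 * y2 +
        2 * (a + c) * (DRF_nrm y1 y2 - (x1 * y1 + x2 * y2) / DRF_nrm x1 x2) := by
  set n := DRF_nrm x1 x2 with hn'
  have hn2 : n ^ 2 = x1 ^ 2 + x2 ^ 2 := DRF_nrm_sq _ _
  set X := √(DRF_QF a b c x1 x2) with hX
  have hX2 : X ^ 2 = DRF_QF a b c x1 x2 := sq_sqrt (DRF_QF_nonneg h _ _)
  have hX0 : 0 ≤ X := sqrt_nonneg _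
  have hPm : ∀ y1 y2 : ℝ, (x1 * y1 + x2 * y2) / n ≤ DRF_nrm y1 y2 := by
    intro y1 y2
    rw [div_le_iff₀ hn, mul_comm (DRF_nrm y1 y2)]
    exact (le_abs_self _).trans (DRF_dot_le _ _ _ _)
  rcases lt_or_ge X (k * n) with hlt | hge
  · refine ⟨0, 0, ?_, ?_⟩
    · rw [DRF_FF, ← hX, max_eq_right (by linarith)]
      simp
    · intro y1 y2
      set m := DRF_nrm y1 y2 with hm
      have hm0 : 0 ≤ m := DRF_nrm_nonneg _ _
      rcases hm0.eq_or_lt with h0 | h0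
      · rw [← h0, DRF_FF_zero_right]
        have : (0:ℝ) - (x1 * y1 + x2 * y2) / n = 0 := by
          have h1 := hPm y1 y2
          have h2 := DRF_dot_le x1 x2 y1 y2
          rw [← hm, ← h0, mul_zero] at h2
          have h3 : x1 * y1 + x2 * y2 = 0 := abs_eq_zero.1 (le_antisymm h2 (abs_nonneg _))
          rw [h3]; simp
        rw [this]; simp
      · have hd := DRF_QF_diff h x1 x2 y1 y2 hn
        rw [← hm, ← hn'] at hd
        have hB := DRF_QB_le h x1 x2 y1 y2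
        rw [← hX] at hB
        set Y := √(DRF_QF a b c y1 y2) with hY
        have hY2 : Y ^ 2 = DRF_QF a b c y1 y2 := sq_sqrt (DRF_QF_nonneg h _ _)
        have hY0 : 0 ≤ Y := sqrt_nonneg _
        have hPm' := hPm y1 y2
        rw [← hm] at hPm'
        have hac : 0 ≤ a + c := by have := h.ha; have := h.hc; linarith
        rw [DRF_FF, ← hY, zero_mul, zero_mul, zero_add, zero_add, div_le_iff₀ h0]
        rcases le_total Y (k * m) with h1 | h1
        · rw [max_eq_right (by linarith)]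
          have : 0 ≤ 2 * (a + c) * (m - (x1 * y1 + x2 * y2) / n) * m := by
            have : 0 ≤ m - (x1 * y1 + x2 * y2) / n := by linarith
            positivity
          simpa using this
        · rw [max_eq_left (by linarith)]
          have h2 : m / n * X ≤ k * m := by
            have : m / n * X ≤ m / n * (k * n) := mul_le_mul_of_nonneg_left hlt.le (by positivity)
            have e : m / n * (k * n) = k * m := by field_simp
            linarith
          have h3 : (Y - k * m) ^ 2 ≤ (Y - m / n * X) ^ 2 := by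
            apply pow_le_pow_left₀ (by linarith)
            linarith
          have h4 : (Y - m / n * X) ^ 2 ≤ DRF_QF a b c y1 y2 - 2 * (m / n) * DRF_QB a b c x1 x2 y1 y2 +
              (m / n) ^ 2 * DRF_QF a b c x1 x2 := by
            rw [← hX2, ← hY2]
            have : 0 ≤ m / n * (X * Y - DRF_QB a b c x1 x2 y1 y2) := by
              have : 0 ≤ X * Y - DRF_QB a b c x1 x2 y1 y2 := by linarith
              positivity
            nlinarith
          calc (Y - k * m) ^ 2 ≤ _ := h3.trans (h4.trans hd)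
            _ = _ := by ring
  · refine ⟨2 * (1 - k * n / X) * ((a * x1 + b * x2) / n) + (k ^ 2 - X ^ 2 / n ^ 2) * (x1 / n),
      2 * (1 - k * n / X) * ((b * x1 + c * x2) / n) + (k ^ 2 - X ^ 2 / n ^ 2) * (x2 / n), ?_, ?_⟩
    · rw [DRF_FF, ← hX, max_eq_left (by linarith)]
      have e1 : ((a * x1 + b * x2) * x1 + (b * x1 + c * x2) * x2) = X ^ 2 := by
        rw [hX2, DRF_QF]; ring
      have e2 : (2 * (1 - k * n / X) * ((a * x1 + b * x2) / n) + (k ^ 2 - X ^ 2 / n ^ 2) * (x1 / n)) * x1 +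
        (2 * (1 - k * n / X) * ((b * x1 + c * x2) / n) + (k ^ 2 - X ^ 2 / n ^ 2) * (x2 / n)) * x2 =
        2 * (1 - k * n / X) * (((a * x1 + b * x2) * x1 + (b * x1 + c * x2) * x2) / n) +
          (k ^ 2 - X ^ 2 / n ^ 2) * ((x1 ^ 2 + x2 ^ 2) / n) := by ring
      rw [e2, e1, ← hn2]
      rcases hX0.eq_or_lt with h0 | h0
      · rw [← h0] at hge ⊢
        have hkn : k * n = 0 := le_antisymm hge (by positivity)
        have hk0 : k = 0 := by
          rcases mul_eq_zero.1 hkn with h | h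
          · exact h
          · exact absurd h hn.ne'
        rw [hk0]; simp
      · field_simp
        ring
    · intro y1 y2
      set m := DRF_nrm y1 y2 with hm
      have hm0 : 0 ≤ m := DRF_nrm_nonneg _ _
      have hm2 : m ^ 2 = y1 ^ 2 + y2 ^ 2 := DRF_nrm_sq _ _
      rcases hm0.eq_or_lt with h0 | h0
      · have hy1 : y1 = 0 := by nlinarith [sq_nonneg y1, sq_nonneg y2]
        have hy2 : y2 = 0 := by nlinarith [sq_nonneg y1, sq_nonneg y2]
        rw [← h0, DRF_FF_zero_right, hy1, hy2]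
        simp
      · have hd := DRF_QF_diff h x1 x2 y1 y2 hn
        rw [← hm, ← hn'] at hd
        have hB := DRF_QB_le h x1 x2 y1 y2
        rw [← hX] at hB
        have hB2 := DRF_QB_sq_le h x1 x2 y1 y2
        set Y := √(DRF_QF a b c y1 y2) with hY
        have hY2 : Y ^ 2 = DRF_QF a b c y1 y2 := sq_sqrt (DRF_QF_nonneg h _ _)
        have hY0 : 0 ≤ Y := sqrt_nonneg _
        have hPm' := hPm y1 y2
        rw [← hm] at hPm'
        set P := (x1 * y1 + x2 * y2) / n with hP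
        have hP' : x1 * y1 + x2 * y2 = P * n := by rw [hP]; field_simp
        set B := DRF_QB a b c x1 x2 y1 y2 with hBd
        have hlin : (2 * (1 - k * n / X) * ((a * x1 + b * x2) / n) + (k ^ 2 - X ^ 2 / n ^ 2) * (x1 / n)) * y1 +
          (2 * (1 - k * n / X) * ((b * x1 + c * x2) / n) + (k ^ 2 - X ^ 2 / n ^ 2) * (x2 / n)) * y2 =
          2 * (1 - k * n / X) * (B / n) + (k ^ 2 - X ^ 2 / n ^ 2) * P := by
          have e1 : (2 * (1 - k * n / X) * ((a * x1 + b * x2) / n) + (k ^ 2 - X ^ 2 / n ^ 2) * (x1 / n)) * y1 +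
            (2 * (1 - k * n / X) * ((b * x1 + c * x2) / n) + (k ^ 2 - X ^ 2 / n ^ 2) * (x2 / n)) * y2 =
            2 * (1 - k * n / X) * (((a * x1 + b * x2) * y1 + (b * x1 + c * x2) * y2) / n) +
            (k ^ 2 - X ^ 2 / n ^ 2) * ((x1 * y1 + x2 * y2) / n) := by ring
          rw [e1, hBd, DRF_QB, ← hP]
          ring
        rw [hlin, DRF_FF, ← hY, div_le_iff₀ h0]
        have hsq : (max (Y - k * m) 0) ^ 2 ≤ (Y - k * m) ^ 2 := by
          rcases le_total (Y - k * m) 0 with h1 | h1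
          · rw [max_eq_right h1]
            simpa using sq_nonneg (Y - k * m)
          · rw [max_eq_left h1]
        refine hsq.trans ?_
        have hd' : Y ^ 2 - 2 * (m / n) * B + (m / n) ^ 2 * X ^ 2 ≤ 2 * (a + c) * m * (m - P) := by
          rw [hY2, hX2]; exact hd
        have hXn : k ^ 2 ≤ X ^ 2 / n ^ 2 := by
          rw [le_div_iff₀ (by positivity), ← mul_pow]
          exact pow_le_pow_left₀ (by positivity) hge 2
        have h3 : 0 ≤ (X ^ 2 / n ^ 2 - k ^ 2) * m * (m - P) := by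
          have h4 : 0 ≤ X ^ 2 / n ^ 2 - k ^ 2 := by linarith
          have h5 : 0 ≤ m - P := by linarith
          positivity
        have h4 : 0 ≤ 2 * k * m * (Y - B / X) := by
          have h5 : B / X ≤ Y := by
            rcases hX0.eq_or_lt with h6 | h6
            · rw [← h6, div_zero]; exact hY0
            · rw [div_le_iff₀ h6]; linarith
          have : 0 ≤ Y - B / X := by linarith
          positivity
        have e : (2 * (1 - k * n / X) * (B / n) + (k ^ 2 - X ^ 2 / n ^ 2) * P +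
            2 * (a + c) * (m - P)) * m - (Y - k * m) ^ 2 =
            (X ^ 2 / n ^ 2 - k ^ 2) * m * (m - P) + 2 * k * m * (Y - B / X) +
            (2 * (a + c) * m * (m - P) - (Y ^ 2 - 2 * (m / n) * B + (m / n) ^ 2 * X ^ 2)) := by
          rcases hX0.eq_or_lt with h6 | h6
          · rw [← h6]
            field_simp
            ring
          · field_simp
            ring
        linarith


lemma DRF_tr (M : Mat) (x : ℝ × ℝ) : nm (M.tr x) =
    √(DRF_QF (M.a ^ 2 + M.b ^ 2) (M.a * M.c + M.b * M.d) (M.c ^ 2 + M.d ^ 2) x.1 x.2) := by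
  rw [nm, Mat.tr, DRF_QF]
  congr 1
  ring

lemma DRF_psd (M : Mat) :
    DRF_PSD (M.a ^ 2 + M.b ^ 2) (M.a * M.c + M.b * M.d) (M.c ^ 2 + M.d ^ 2) := by
  refine ⟨by positivity, by positivity, ?_⟩
  nlinarith [sq_nonneg (M.a * M.d - M.b * M.c)]

end DRF

theorem sDrf : SDrf := by
  intro M c0 x hc hx
  have hn : 0 < DRF_nrm x.1 x.2 := by
    rw [DRF_nrm]
    apply Real.sqrt_pos.2
    by_contra h
    push Not at h
    have h1 : x.1 = 0 := by nlinarith [sq_nonneg x.1, sq_nonneg x.2]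
    have h2 : x.2 = 0 := by nlinarith [sq_nonneg x.1, sq_nonneg x.2]
    exact hx (Prod.ext h1 h2)
  obtain ⟨l1, l2, h1, h2⟩ := DRF_drift (DRF_psd M) hc x.1 x.2 hn
  refine ⟨(l1, l2), ?_, fun y => ?_⟩
  · rw [DRF_tr]
    exact h1
  · have h3 := h2 y.1 y.2
    have e1 : nm y = DRF_nrm y.1 y.2 := rfl
    have e2 : nm x = DRF_nrm x.1 x.2 := rfl
    have e3 : dot x y = x.1 * y.1 + x.2 * y.2 := rfl
    have e4 : dot (l1, l2) y = l1 * y.1 + l2 * y.2 := rfl
    have h4 : (x.1 * y.1 + x.2 * y.2) / DRF_nrm x.1 x.2 ≤ DRF_nrm y.1 y.2 := by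
      rw [div_le_iff₀ hn, mul_comm (DRF_nrm y.1 y.2)]
      exact (le_abs_self _).trans (DRF_dot_le _ _ _ _)
    rw [DRF_tr, e1, e2, e3, e4]
    have h5 : 0 ≤ (M.a ^ 2 + M.b ^ 2 + M.c ^ 2 + M.d ^ 2) *
        (DRF_nrm y.1 y.2 - (x.1 * y.1 + x.2 * y.2) / DRF_nrm x.1 x.2) := by
      have : 0 ≤ DRF_nrm y.1 y.2 - (x.1 * y.1 + x.2 * y.2) / DRF_nrm x.1 x.2 := by linarith
      positivity
    refine (le_trans h3 ?_)
    nlinarith

end Pool.UMD
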